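import Pool.Agent.Lib.MP_2c1b2b_gt.H68.VolMain
import Pool.Agent.Lib.MP_2c1b2b_gt.H94.Transport

/-!
# MP_2c1b2b_gt (helper68): module A, final form
-/

namespace Pool.Agent.Lib.MP_2c1b2b_gt

/-- The two-sided body of signs `z` with `|∑ zᵢ |⟨vᵢ,x⟩|| ≤ 5 √(n/N) h(x)` has Gaussian measure
at least `e^{-32N}` (unnormalised). -/
theorem H68.volStatement : VolStatement := volStatement_of H94.transportStatement

end Pool.Agent.Lib.MP_2c1b2b_gt
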