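import Pool.Agent.Lib.MP_2c1b2b_gt.Interfaces

/-!
# MP_2c1b2b_gt (helper68): iterated integrals and the replacement lemma
-/

open MeasureTheory
open scoped BigOperators ENNReal Pointwise RealInnerProductSpace

namespace Pool.Agent.Lib.MP_2c1b2b_gt

noncomputable section

/-- The Gaussian weight. -/
def gd {N : ℕ} (x : Fin N → ℝ) : ℝ≥0∞ := ENNReal.ofReal (Real.exp (-(sq x) / 2))

theorem continuous_sq {N : ℕ} : Continuous (sq : (Fin N → ℝ) → ℝ) := by
  unfold sq
  fun_prop

theorem measurable_gd {N : ℕ} : Measurable (gd : (Fin N → ℝ) → ℝ≥0∞) := by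
  have : Continuous (fun x : Fin N → ℝ => Real.exp (-(sq x) / 2)) := by
    have := continuous_sq (N := N)
    fun_prop
  exact this.measurable.ennreal_ofReal

theorem gw_def {N : ℕ} (S : Set (Fin N → ℝ)) : gw S = ∫⁻ x in S, gd x := rfl

theorem sq_insertNth {M : ℕ} (k : Fin (M + 1)) (s : ℝ) (y : Fin M → ℝ) :
    sq (k.insertNth s y : Fin (M + 1) → ℝ) = s ^ 2 + sq y := by
  unfold sq
  rw [Fin.sum_univ_succAbove _ k]
  simp

theorem gd_insertNth {M : ℕ} (k : Fin (M + 1)) (s : ℝ) (y : Fin M → ℝ) :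
    gd (k.insertNth s y : Fin (M + 1) → ℝ) = gd y * ENNReal.ofReal (Real.exp (-s ^ 2 / 2)) := by
  unfold gd
  rw [← ENNReal.ofReal_mul (Real.exp_pos _).le, ← Real.exp_add, sq_insertNth]
  congr 2
  ring

/-- Fubini for one coordinate. -/
theorem lintegral_insertNth {M : ℕ} (k : Fin (M + 1)) (f : (Fin (M + 1) → ℝ) → ℝ≥0∞)
    (hf : Measurable f) :
    ∫⁻ x, f x = ∫⁻ y : Fin M → ℝ, ∫⁻ s : ℝ, f (k.insertNth s y) := by
  have e := (volume_preserving_piFinSuccAbove (fun _ : Fin (M + 1) => ℝ) k).symm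
  have h1 := e.lintegral_comp hf
  rw [← h1]
  change ∫⁻ a : ℝ × (Fin M → ℝ), f ((MeasurableEquiv.piFinSuccAbove (fun _ => ℝ) k).symm a)
    ∂(volume.prod volume) = _
  rw [lintegral_prod_symm']
  · rfl
  · exact hf.comp e.measurable

theorem measurable_insertNth {M : ℕ} (k : Fin (M + 1)) (y : Fin M → ℝ) :
    Measurable (fun s : ℝ => (k.insertNth s y : Fin (M + 1) → ℝ)) := by
  have e := (volume_preserving_piFinSuccAbove (fun _ : Fin (M + 1) => ℝ) k).symm
  exact e.measurable.comp (measurable_id.prodMk measurable_const)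

theorem gw_insertNth {M : ℕ} (k : Fin (M + 1)) (S : Set (Fin (M + 1) → ℝ))
    (hS : MeasurableSet S) :
    gw S = ∫⁻ y : Fin M → ℝ, gd y *
      ∫⁻ s in {s : ℝ | (k.insertNth s y : Fin (M + 1) → ℝ) ∈ S},
        ENNReal.ofReal (Real.exp (-s ^ 2 / 2)) := by
  rw [gw_def, ← lintegral_indicator hS, lintegral_insertNth k _ (measurable_gd.indicator hS)]
  refine lintegral_congr (fun y => ?_)
  have hm : MeasurableSet {s : ℝ | (k.insertNth s y : Fin (M + 1) → ℝ) ∈ S} :=
    measurable_insertNth k y hS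
  rw [← lintegral_const_mul' _ _ (by simp [gd]), ← lintegral_indicator hm]
  refine lintegral_congr (fun s => ?_)
  by_cases h : (k.insertNth s y : Fin (M + 1) → ℝ) ∈ S
  · rw [Set.indicator_of_mem h, gd_insertNth]
    exact (if_pos h).symm
  · rw [Set.indicator_of_notMem h]
    exact (if_neg h).symm

/-! ### The replacement lemma -/

theorem fiber {X : Type*} (u D : X → ℝ) :
    ({s : ℝ | ∀ x, s * u x ≤ D x} ⊆ {s : ℝ | ∀ x, s * |u x| ≤ D x}) ∨
      ({s : ℝ | ∀ x, (-s) * u x ≤ D x} ⊆ {s : ℝ | ∀ x, s * |u x| ≤ D x}) := by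
  by_contra hc
  push Not at hc
  obtain ⟨h1, h2⟩ := hc
  rw [Set.not_subset] at h1 h2
  obtain ⟨s₁, hs₁, hn₁⟩ := h1
  obtain ⟨s₂, hs₂, hn₂⟩ := h2
  simp only [Set.mem_ofPred_eq] at hs₁ hn₁ hs₂ hn₂
  push Not at hn₁ hn₂
  obtain ⟨x₁, hx₁⟩ := hn₁
  obtain ⟨x₂, hx₂⟩ := hn₂
  have a1 := hs₁ x₁
  have a2 := hs₁ x₂
  have b1 := hs₂ x₁
  have b2 := hs₂ x₂
  rcases abs_cases (u x₁) with ⟨e1, e1'⟩ | ⟨e1, e1'⟩
  · rw [e1] at hx₁; linarith
  rcases abs_cases (u x₂) with ⟨e2, e2'⟩ | ⟨e2, e2'⟩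
  · rw [e1] at hx₁
    rw [e2] at hx₂
    rcases lt_or_ge s₁ s₂ with h | h
    · nlinarith
    · nlinarith
  · rw [e2] at hx₂; linarith

/-- One-dimensional symmetry of the Gaussian weight. -/
theorem lintegral_neg_gauss (S : Set ℝ) (hS : MeasurableSet S) :
    ∫⁻ s in {s : ℝ | -s ∈ S}, ENNReal.ofReal (Real.exp (-s ^ 2 / 2)) =
      ∫⁻ s in S, ENNReal.ofReal (Real.exp (-s ^ 2 / 2)) := by
  have hm : MeasurableSet {s : ℝ | -s ∈ S} := measurable_neg hS
  have e := (Measure.measurePreserving_neg (volume : Measure ℝ)).lintegral_comp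
    (f := S.indicator (fun s => ENNReal.ofReal (Real.exp (-s ^ 2 / 2)))) ?_
  · rw [← lintegral_indicator hm, ← lintegral_indicator hS, ← e]
    refine lintegral_congr (fun s => ?_)
    by_cases h : -s ∈ S
    · rw [Set.indicator_of_mem h, neg_sq]
      exact if_pos h
    · rw [Set.indicator_of_notMem h]
      exact if_neg h
  · refine Measurable.indicator ?_ hS
    have : Continuous (fun s : ℝ => Real.exp (-s ^ 2 / 2)) := by fun_prop
    exact this.measurable.ennreal_ofReal

/-- The hybrid sets of the replacement lemma. -/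
def hyb {X : Type*} {N : ℕ} (u : Fin N → X → ℝ) (T : X → ℝ) (J : Finset (Fin N)) :
    Set (Fin N → ℝ) :=
  {y | ∀ x, ∑ i, y i * (if i ∈ J then |u i x| else u i x) ≤ T x}

theorem isClosed_hyb {X : Type*} {N : ℕ} (u : Fin N → X → ℝ) (T : X → ℝ) (J : Finset (Fin N)) :
    IsClosed (hyb u T J) := by
  have : hyb u T J = ⋂ x, {y | ∑ i, y i * (if i ∈ J then |u i x| else u i x) ≤ T x} := by
    ext y
    simp [hyb]
  rw [this]
  refine isClosed_iInter (fun x => isClosed_le ?_ continuous_const)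
  fun_prop

theorem hyb_step {X : Type*} {N : ℕ} (u : Fin N → X → ℝ) (T : X → ℝ) (J : Finset (Fin N))
    (k : Fin N) (hk : k ∉ J) : gw (hyb u T J) ≤ gw (hyb u T (insert k J)) := by
  obtain ⟨M, rfl⟩ : ∃ M, N = M + 1 := ⟨N - 1, by have := k.2; omega⟩
  rw [gw_insertNth k _ (isClosed_hyb u T J).measurableSet,
    gw_insertNth k _ (isClosed_hyb u T (insert k J)).measurableSet]
  refine lintegral_mono (fun y => ?_)
  refine mul_le_mul_right ?_ _
  set D : X → ℝ := fun x => T x - ∑ j : Fin M, y j * (if k.succAbove j ∈ J then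
    |u (k.succAbove j) x| else u (k.succAbove j) x) with hD
  have h1 : {s : ℝ | (k.insertNth s y : Fin (M + 1) → ℝ) ∈ hyb u T J} =
      {s : ℝ | ∀ x, s * u k x ≤ D x} := by
    ext s
    simp only [hyb, Set.mem_ofPred_eq, hD]
    refine forall_congr' (fun x => ?_)
    rw [Fin.sum_univ_succAbove _ k]
    simp only [Fin.insertNth_apply_same, Fin.insertNth_apply_succAbove, if_neg hk]
    constructor <;> intro h <;> linarith
  have h2 : {s : ℝ | (k.insertNth s y : Fin (M + 1) → ℝ) ∈ hyb u T (insert k J)} =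
      {s : ℝ | ∀ x, s * |u k x| ≤ D x} := by
    ext s
    simp only [hyb, Set.mem_ofPred_eq, hD]
    refine forall_congr' (fun x => ?_)
    rw [Fin.sum_univ_succAbove _ k]
    simp only [Fin.insertNth_apply_same, Fin.insertNth_apply_succAbove,
      Finset.mem_insert_self, if_true, Finset.mem_insert, Fin.succAbove_ne k, false_or]
    constructor <;> intro h <;> linarith
  rw [h1, h2]
  have hm : MeasurableSet {s : ℝ | ∀ x, s * u k x ≤ D x} := by
    rw [← h1]
    exact measurable_insertNth k y (isClosed_hyb u T J).measurableSet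
  rcases fiber (u k) D with h | h
  · exact lintegral_mono_set h
  · rw [← lintegral_neg_gauss _ hm]
    exact lintegral_mono_set h

/-- **The replacement lemma.** -/
theorem replacement {X : Type*} {N : ℕ} (u : Fin N → X → ℝ) (T : X → ℝ) :
    gw {y : Fin N → ℝ | ∀ x, ∑ i, y i * u i x ≤ T x} ≤
      gw {y : Fin N → ℝ | ∀ x, ∑ i, y i * |u i x| ≤ T x} := by
  have h : ∀ J : Finset (Fin N), gw (hyb u T ∅) ≤ gw (hyb u T J) := by
    intro J
    induction J using Finset.induction_on with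
    | empty => exact le_rfl
    | insert k J hk ih => exact ih.trans (hyb_step u T J k hk)
  have := h Finset.univ
  simpa [hyb] using this

end

end Pool.Agent.Lib.MP_2c1b2b_gt
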