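import Pool.Agent.Lib.MP_2c1b2b_gt.H68.SmallBall

/-!
# MP_2c1b2b_gt (helper68): Gaussian integrals and the entropy inequality
-/

open MeasureTheory
open scoped BigOperators ENNReal Pointwise RealInnerProductSpace

namespace Pool.Agent.Lib.MP_2c1b2b_gt

noncomputable section

theorem integrable_quad {b : ℝ} (hb : 0 < b) (l : ℝ) :
    Integrable (fun s : ℝ => Real.exp (l * s - b * s ^ 2)) := by
  have h := (integrable_exp_neg_mul_sq hb).comp_sub_right (l / (2 * b))
  have h2 := h.const_mul (Real.exp (l ^ 2 / (4 * b)))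
  refine h2.congr (Filter.Eventually.of_forall (fun s => ?_))
  simp only
  rw [← Real.exp_add]
  congr 1
  field_simp
  ring

theorem integral_quad {b : ℝ} (hb : 0 < b) (l : ℝ) :
    ∫ s : ℝ, Real.exp (l * s - b * s ^ 2) =
      Real.exp (l ^ 2 / (4 * b)) * Real.sqrt (Real.pi / b) := by
  have h : (fun s : ℝ => Real.exp (l * s - b * s ^ 2)) =
      fun s => Real.exp (l ^ 2 / (4 * b)) * Real.exp (-b * (s - l / (2 * b)) ^ 2) := by
    funext s
    rw [← Real.exp_add]
    congr 1
    field_simp
    ring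
  rw [h, integral_const_mul, integral_sub_right_eq_self (fun s => Real.exp (-b * s ^ 2)),
    integral_gaussian]

theorem integrable_quad_pi {N : ℕ} {b : ℝ} (hb : 0 < b) (l : Fin N → ℝ) :
    Integrable (fun y : Fin N → ℝ => Real.exp (∑ i, l i * y i - b * sq y)) := by
  have h := Integrable.fintype_prod (𝕜 := ℝ) (f := fun i : Fin N => fun s : ℝ =>
    Real.exp (l i * s - b * s ^ 2)) (fun i => integrable_quad hb (l i))
  refine h.congr (Filter.Eventually.of_forall (fun y => ?_))
  simp only
  rw [← Real.exp_sum]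
  congr 1
  unfold sq
  rw [Finset.mul_sum, ← Finset.sum_sub_distrib]

theorem integral_quad_pi {N : ℕ} {b : ℝ} (hb : 0 < b) (l : Fin N → ℝ) :
    ∫ y : Fin N → ℝ, Real.exp (∑ i, l i * y i - b * sq y) =
      Real.exp (sq l / (4 * b)) * Real.sqrt (Real.pi / b) ^ N := by
  have h : (fun y : Fin N → ℝ => Real.exp (∑ i, l i * y i - b * sq y)) =
      fun y => ∏ i, Real.exp (l i * y i - b * y i ^ 2) := by
    funext y
    rw [← Real.exp_sum]
    congr 1
    unfold sq
    rw [Finset.mul_sum, ← Finset.sum_sub_distrib]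
  rw [h, integral_fintype_prod_volume_eq_prod
    (fun i : Fin N => fun s : ℝ => Real.exp (l i * s - b * s ^ 2))]
  rw [Finset.prod_congr rfl (fun i _ => integral_quad hb (l i)), Finset.prod_mul_distrib,
    ← Real.exp_sum]
  congr 1
  · congr 1
    unfold sq
    rw [Finset.sum_div]
  · simp

/-- The Gaussian weight, real valued. -/
def ge {N : ℕ} (x : Fin N → ℝ) : ℝ := Real.exp (-(sq x) / 2)

theorem ge_pos {N : ℕ} (x : Fin N → ℝ) : 0 < ge x := Real.exp_pos _

theorem continuous_ge {N : ℕ} : Continuous (ge : (Fin N → ℝ) → ℝ) := by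
  have := continuous_sq (N := N)
  unfold ge
  fun_prop

theorem integrable_ge {N : ℕ} : Integrable (ge : (Fin N → ℝ) → ℝ) := by
  have h := integrable_quad_pi (N := N) (show (0 : ℝ) < 1 / 2 by norm_num) (fun _ => 0)
  refine h.congr (Filter.Eventually.of_forall (fun y => ?_))
  simp only [zero_mul, Finset.sum_const_zero, ge]
  congr 1
  ring

theorem gw_eq_ofReal {N : ℕ} (S : Set (Fin N → ℝ)) : gw S = ENNReal.ofReal (∫ x in S, ge x) := by
  rw [ofReal_integral_eq_lintegral_ofReal integrable_ge.integrableOn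
    (Filter.Eventually.of_forall (fun x => (ge_pos x).le))]
  rfl

theorem gw_ne_top {N : ℕ} (S : Set (Fin N → ℝ)) : gw S ≠ ⊤ := by
  rw [gw_eq_ofReal]
  exact ENNReal.ofReal_ne_top

/-- The entropy inequality. -/
theorem entropy {N : ℕ} {S : Set (Fin N → ℝ)} {G M : ℝ} (hG : 0 < G)
    (hGS : ∫ x in S, ge x = G) (Y : (Fin N → ℝ) → ℝ)
    (h1 : IntegrableOn (fun x => Y x * ge x) S)
    (h2 : IntegrableOn (fun x => Real.exp (Y x) * ge x) S)
    (hM : ∫ x in S, Real.exp (Y x) * ge x ≤ M) :
    Real.exp ((∫ x in S, Y x * ge x) / G) * G ≤ M := by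
  set m := (∫ x in S, Y x * ge x) / G with hm
  refine le_trans ?_ hM
  have h3 : ∫ x in S, (Real.exp m * (1 - m) * ge x + Real.exp m * (Y x * ge x)) =
      Real.exp m * G := by
    rw [integral_add (integrable_ge.integrableOn.const_mul _) (h1.const_mul _),
      integral_const_mul, integral_const_mul, hGS]
    have : ∫ x in S, Y x * ge x = m * G := by
      rw [hm]
      field_simp
    rw [this]
    ring
  rw [← h3]
  refine setIntegral_mono ?_ h2 (fun x => ?_)
  · exact (integrable_ge.integrableOn.const_mul _).add (h1.const_mul _)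
  · have h4 := Real.add_one_le_exp (Y x - m)
    have h5 : Real.exp (Y x) = Real.exp m * Real.exp (Y x - m) := by
      rw [← Real.exp_add]
      congr 1
      ring
    have h6 := ge_pos x
    have h7 := Real.exp_pos m
    simp only
    rw [h5]
    have : Real.exp m * (1 - m) * ge x + Real.exp m * (Y x * ge x) =
        Real.exp m * ((Y x - m) + 1) * ge x := by ring
    rw [this]
    exact mul_le_mul_of_nonneg_right (mul_le_mul_of_nonneg_left h4 h7.le) h6.le

theorem sq_nonneg' {N : ℕ} (x : Fin N → ℝ) : 0 ≤ sq x :=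
  Finset.sum_nonneg (fun _ _ => _root_.sq_nonneg _)

theorem integrable_exp_sq {N : ℕ} :
    Integrable (fun x : Fin N → ℝ => Real.exp (sq x / 4) * ge x) := by
  have h := integrable_quad_pi (N := N) (show (0 : ℝ) < 1 / 4 by norm_num) (fun _ => 0)
  refine h.congr (Filter.Eventually.of_forall (fun y => ?_))
  simp only [zero_mul, Finset.sum_const_zero, ge]
  rw [← Real.exp_add]
  congr 1
  ring

theorem integral_exp_sq {N : ℕ} :
    ∫ x : Fin N → ℝ, Real.exp (sq x / 4) * ge x = Real.sqrt (4 * Real.pi) ^ N := by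
  have h := integral_quad_pi (N := N) (show (0 : ℝ) < 1 / 4 by norm_num) (fun _ => 0)
  have e : (fun x : Fin N → ℝ => Real.exp (sq x / 4) * ge x) =
      fun y => Real.exp (∑ i, (fun _ => (0 : ℝ)) i * y i - 1 / 4 * sq y) := by
    funext y
    simp only [zero_mul, Finset.sum_const_zero, ge]
    rw [← Real.exp_add]
    congr 1
    ring
  rw [e, h]
  have : sq (fun _ : Fin N => (0 : ℝ)) = 0 := by simp [sq]
  rw [this, zero_div, Real.exp_zero, one_mul]
  congr 2
  ring

theorem integrable_sq_ge {N : ℕ} : Integrable (fun x : Fin N → ℝ => sq x * ge x) := by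
  refine ((integrable_exp_sq (N := N)).const_mul 4).mono' ?_ (Filter.Eventually.of_forall ?_)
  · exact (continuous_sq.mul continuous_ge).aestronglyMeasurable
  · intro x
    have h1 := sq_nonneg' x
    have h2 := ge_pos x
    rw [Real.norm_of_nonneg (mul_nonneg h1 h2.le), ← mul_assoc]
    refine mul_le_mul_of_nonneg_right ?_ h2.le
    have := Real.add_one_le_exp (sq x / 4)
    linarith

theorem integrable_lin_ge {N : ℕ} (l : Fin N → ℝ) :
    Integrable (fun x : Fin N → ℝ => (∑ i, l i * x i) * ge x) := by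
  refine ((integrable_sq_ge (N := N)).add ((integrable_ge (N := N)).const_mul (sq l))).mono' ?_
    (Filter.Eventually.of_forall ?_)
  · refine Continuous.aestronglyMeasurable ?_
    have := continuous_ge (N := N)
    fun_prop
  · intro x
    have h2 := ge_pos x
    rw [norm_mul, Real.norm_of_nonneg h2.le]
    change _ ≤ sq x * ge x + sq l * ge x
    rw [← add_mul]
    refine mul_le_mul_of_nonneg_right ?_ h2.le
    rw [Real.norm_eq_abs]
    unfold sq
    rw [← Finset.sum_add_distrib]
    refine (Finset.abs_sum_le_sum_abs _ _).trans (Finset.sum_le_sum (fun i _ => ?_))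
    rw [abs_mul]
    nlinarith [sq_nonneg (|l i| - |x i|), sq_abs (l i), sq_abs (x i), abs_nonneg (l i),
      abs_nonneg (x i), mul_nonneg (abs_nonneg (l i)) (abs_nonneg (x i))]

theorem integrable_exp_lin {N : ℕ} (l : Fin N → ℝ) :
    Integrable (fun x : Fin N → ℝ => Real.exp (∑ i, l i * x i) * ge x) := by
  have h := integrable_quad_pi (N := N) (show (0 : ℝ) < 1 / 2 by norm_num) l
  refine h.congr (Filter.Eventually.of_forall (fun y => ?_))
  simp only [ge]
  rw [← Real.exp_add]
  congr 1
  ring

theorem integral_exp_lin {N : ℕ} (l : Fin N → ℝ) :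
    ∫ x : Fin N → ℝ, Real.exp (∑ i, l i * x i) * ge x =
      Real.exp (sq l / 2) * Real.sqrt (2 * Real.pi) ^ N := by
  have h := integral_quad_pi (N := N) (show (0 : ℝ) < 1 / 2 by norm_num) l
  have e : (fun x : Fin N → ℝ => Real.exp (∑ i, l i * x i) * ge x) =
      fun y => Real.exp (∑ i, l i * y i - 1 / 2 * sq y) := by
    funext y
    simp only [ge]
    rw [← Real.exp_add]
    congr 1
    ring
  rw [e, h]
  congr 2
  · congr 1
    ring
  · congr 1
    ring

end

end Pool.Agent.Lib.MP_2c1b2b_gt
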