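import Pool.Agent.Lib.MP_2c1b2b_gt.H68.Fubini

/-!
# MP_2c1b2b_gt (helper68): the small ball estimate in Lewis' position
-/

open MeasureTheory
open scoped BigOperators ENNReal Pointwise RealInnerProductSpace

namespace Pool.Agent.Lib.MP_2c1b2b_gt

noncomputable section

/-- `ψ = s - χ s`. -/
def psi (s : ℝ) : ℝ := ∫ r in (0 : ℝ)..s, Real.exp (-r ^ 2 / 2)

theorem chi_eq (s : ℝ) : chi s = s - psi s := rfl

theorem gauss_integrable : Integrable (fun r : ℝ => Real.exp (-r ^ 2 / 2)) := by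
  have := integrable_exp_neg_mul_sq (show (0 : ℝ) < 1 / 2 by norm_num)
  refine this.congr (Filter.Eventually.of_forall (fun r => ?_))
  simp only
  congr 1
  ring

theorem integral_gauss_Ioi :
    ∫ r in Set.Ioi (0 : ℝ), Real.exp (-r ^ 2 / 2) = Real.sqrt (Real.pi / 2) := by
  have h := integral_gaussian_Ioi (1 / 2)
  have e : (fun r : ℝ => Real.exp (-r ^ 2 / 2)) = fun r => Real.exp (-(1 / 2) * r ^ 2) := by
    funext r
    congr 1
    ring
  rw [e, h]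
  have h4 : Real.sqrt 4 = 2 := by
    rw [show (4 : ℝ) = 2 ^ 2 by norm_num, Real.sqrt_sq (by norm_num)]
  rw [show Real.pi / (1 / 2) = (Real.pi / 2) * 4 by ring, Real.sqrt_mul (by positivity), h4]
  ring

theorem psi_neg (s : ℝ) : psi (-s) = - psi s := by
  unfold psi
  have h := intervalIntegral.integral_comp_neg (a := 0) (b := s)
    (fun r : ℝ => Real.exp (-r ^ 2 / 2))
  simp only [neg_sq, neg_zero] at h
  rw [h, intervalIntegral.integral_symm]

theorem psi_nonneg {s : ℝ} (hs : 0 ≤ s) : 0 ≤ psi s :=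
  intervalIntegral.integral_nonneg hs (fun _ _ => (Real.exp_pos _).le)

theorem psi_le {s : ℝ} (hs : 0 ≤ s) : psi s ≤ Real.sqrt (Real.pi / 2) := by
  rw [← integral_gauss_Ioi]
  unfold psi
  rw [intervalIntegral.integral_of_le hs]
  exact setIntegral_mono_set gauss_integrable.integrableOn
    (Filter.Eventually.of_forall (fun _ => (Real.exp_pos _).le))
    (Filter.Eventually.of_forall (fun _ hr => hr.1))

theorem abs_psi_le (s : ℝ) : |psi s| ≤ Real.sqrt (Real.pi / 2) := by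
  rcases le_or_gt 0 s with h | h
  · rw [abs_of_nonneg (psi_nonneg h)]
    exact psi_le h
  · have h' : 0 ≤ -s := by linarith
    have e : psi s = - psi (-s) := by rw [psi_neg, neg_neg]
    rw [e, abs_neg, abs_of_nonneg (psi_nonneg h')]
    exact psi_le h'

/-- Lewis' position for the vectors `w`. -/
def Lewis {n N : ℕ} (w : Fin N → E n) : Prop :=
  ∀ x y : E n, ∑ i, ⟪w i, x⟫ * ⟪w i, y⟫ / ‖w i‖ = ⟪x, y⟫

section

variable {n N : ℕ} {w : Fin N → E n}

theorem Lewis.sum_smul (hw : Lewis w) (x : E n) : ∑ i, (⟪w i, x⟫ / ‖w i‖) • w i = x := by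
  refine ext_inner_right ℝ (fun y => ?_)
  rw [sum_inner, ← hw x y]
  refine Finset.sum_congr rfl (fun i _ => ?_)
  rw [real_inner_smul_left]
  ring

theorem Lewis.sum_norm (hw : Lewis w) (h0 : ∀ i, w i ≠ 0) : ∑ i, ‖w i‖ = n := by
  have e := EuclideanSpace.basisFun (Fin n) ℝ
  have h1 : ∀ k, ∑ i, ⟪w i, e k⟫ * ⟪w i, e k⟫ / ‖w i‖ = 1 := by
    intro k
    rw [hw, e.inner_eq_ite, if_pos rfl]
  have h2 : ∑ k, ∑ i, ⟪w i, e k⟫ * ⟪w i, e k⟫ / ‖w i‖ = n := by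
    rw [Finset.sum_congr rfl (fun k _ => h1 k)]
    simp
  rw [← h2, Finset.sum_comm]
  refine Finset.sum_congr rfl (fun i _ => ?_)
  have h3 : ∑ k, ⟪w i, e k⟫ * ⟪w i, e k⟫ = ‖w i‖ * ‖w i‖ := by
    have := e.sum_inner_mul_inner (w i) (w i)
    rw [real_inner_self_eq_norm_mul_norm] at this
    rw [← this]
    refine Finset.sum_congr rfl (fun k _ => ?_)
    rw [real_inner_comm (w i) (e k)]
  rw [← Finset.sum_div, h3, mul_div_assoc, div_self (norm_ne_zero_iff.mpr (h0 i)), mul_one]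

/-- The vector `∑ (y i / √c i) w i`. -/
def bvec (w : Fin N → E n) (y : Fin N → ℝ) : E n := ∑ i, (y i / Real.sqrt ‖w i‖) • w i

theorem Lewis.norm_bvec_sq_le (hw : Lewis w) (y : Fin N → ℝ) : ‖bvec w y‖ ^ 2 ≤ sq y := by
  set b := bvec w y with hb
  have h1 : ‖b‖ ^ 2 = ∑ i, y i * (⟪w i, b⟫ / Real.sqrt ‖w i‖) := by
    rw [← real_inner_self_eq_norm_sq]
    nth_rw 1 [hb]
    unfold bvec
    rw [sum_inner]
    refine Finset.sum_congr rfl (fun i _ => ?_)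
    rw [real_inner_smul_left]
    ring
  have h2 : ∑ i, (⟪w i, b⟫ / Real.sqrt ‖w i‖) ^ 2 = ‖b‖ ^ 2 := by
    rw [← real_inner_self_eq_norm_sq, ← hw b b]
    refine Finset.sum_congr rfl (fun i _ => ?_)
    rw [div_pow, Real.sq_sqrt (norm_nonneg _)]
    ring
  have h3 := Finset.sum_mul_sq_le_sq_mul_sq Finset.univ y (fun i => ⟪w i, b⟫ / Real.sqrt ‖w i‖)
  rw [← h1, h2] at h3
  change (‖b‖ ^ 2) ^ 2 ≤ sq y * ‖b‖ ^ 2 at h3
  have h4 : 0 ≤ sq y := Finset.sum_nonneg (fun i _ => sq_nonneg _)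
  rcases eq_or_lt_of_le (sq_nonneg ‖b‖) with h | h
  · rw [← h]; exact h4
  · nlinarith

/-- The vectors `a j`. -/
def avec (w : Fin N → E n) (j i : Fin N) : ℝ := ⟪w i, w j⟫ / (Real.sqrt ‖w i‖ * ‖w j‖)

theorem Lewis.sq_avec (hw : Lewis w) (h0 : ∀ i, w i ≠ 0) (j : Fin N) : sq (avec w j) = 1 := by
  have hj : ‖w j‖ ≠ 0 := norm_ne_zero_iff.mpr (h0 j)
  have h := hw (w j) (w j)
  rw [real_inner_self_eq_norm_mul_norm] at h
  unfold sq avec
  have e : ∀ i, (⟪w i, w j⟫ / (Real.sqrt ‖w i‖ * ‖w j‖)) ^ 2 =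
      (⟪w i, w j⟫ * ⟪w i, w j⟫ / ‖w i‖) * (1 / (‖w j‖ * ‖w j‖)) := by
    intro i
    rw [div_pow, mul_pow, Real.sq_sqrt (norm_nonneg _)]
    field_simp
  rw [Finset.sum_congr rfl (fun i _ => e i), ← Finset.sum_mul, h]
  field_simp

theorem sum_avec (y : Fin N → ℝ) (j : Fin N) :
    ∑ i, avec w j i * y i = ⟪bvec w y, w j⟫ / ‖w j‖ := by
  unfold avec bvec
  rw [sum_inner, Finset.sum_div]
  refine Finset.sum_congr rfl (fun i _ => ?_)
  rw [real_inner_smul_left]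
  ring

theorem Lewis.sum_sq_avec (hw : Lewis w) (h0 : ∀ i, w i ≠ 0) (y : Fin N → ℝ) :
    ∑ j, ‖w j‖ * (∑ i, avec w j i * y i) ^ 2 = ‖bvec w y‖ ^ 2 := by
  rw [← real_inner_self_eq_norm_sq, ← hw (bvec w y) (bvec w y)]
  refine Finset.sum_congr rfl (fun j _ => ?_)
  have hj : ‖w j‖ ≠ 0 := norm_ne_zero_iff.mpr (h0 j)
  rw [sum_avec, real_inner_comm (bvec w y) (w j)]
  field_simp

theorem Lewis.bvec_transport (hw : Lewis w) (h0 : ∀ i, w i ≠ 0) (y : Fin N → ℝ) :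
    bvec w (fun k => y k - ∑ j, ‖w j‖ * chi (∑ i, avec w j i * y i) * avec w j k) =
      ∑ j, psi (∑ i, avec w j i * y i) • w j := by
  have h1 : ∀ j, ∑ k, (avec w j k / Real.sqrt ‖w k‖) • w k = (1 / ‖w j‖) • w j := by
    intro j
    have := hw.sum_smul ((1 / ‖w j‖) • w j)
    rw [← this]
    refine Finset.sum_congr rfl (fun k _ => ?_)
    congr 1
    rw [real_inner_smul_right]
    unfold avec
    have h3 : Real.sqrt ‖w k‖ * Real.sqrt ‖w k‖ = ‖w k‖ := Real.mul_self_sqrt (norm_nonneg _)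
    have hj : ‖w j‖ ≠ 0 := norm_ne_zero_iff.mpr (h0 j)
    rw [div_div, show Real.sqrt ‖w k‖ * ‖w j‖ * Real.sqrt ‖w k‖ = ‖w k‖ * ‖w j‖ by
      rw [mul_right_comm, h3]]
    have hk : ‖w k‖ ≠ 0 := norm_ne_zero_iff.mpr (h0 k)
    field_simp
  have h2 : bvec w y = ∑ j, (∑ i, avec w j i * y i) • w j := by
    have := hw.sum_smul (bvec w y)
    nth_rw 1 [← this]
    refine Finset.sum_congr rfl (fun j _ => ?_)
    rw [sum_avec, real_inner_comm]
  have h3 : bvec w (fun k => y k - ∑ j, ‖w j‖ * chi (∑ i, avec w j i * y i) * avec w j k) =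
      bvec w y - ∑ j, (‖w j‖ * chi (∑ i, avec w j i * y i)) •
        ∑ k, (avec w j k / Real.sqrt ‖w k‖) • w k := by
    unfold bvec
    simp_rw [Finset.smul_sum]
    rw [Finset.sum_comm, ← Finset.sum_sub_distrib]
    refine Finset.sum_congr rfl (fun k _ => ?_)
    simp_rw [smul_smul]
    rw [← Finset.sum_smul, ← sub_smul]
    congr 1
    rw [sub_div, Finset.sum_div]
    congr 1
    refine Finset.sum_congr rfl (fun j _ => ?_)
    ring
  rw [h3, h2, ← Finset.sum_sub_distrib]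
  refine Finset.sum_congr rfl (fun j _ => ?_)
  have hj : ‖w j‖ ≠ 0 := norm_ne_zero_iff.mpr (h0 j)
  rw [h1, smul_smul, ← sub_smul]
  congr 1
  rw [chi_eq]
  field_simp
  ring

end

/-- The zonotope constraint set. -/
def Lin {n N : ℕ} (w : Fin N → E n) (σ : Fin N → ℝ) (t : ℝ) : Set (Fin N → ℝ) :=
  {y | ∀ x, ∑ i, y i * (σ i * ⟪w i, x⟫) ≤ t * zn w x}

theorem isClosed_Lin {n N : ℕ} (w : Fin N → E n) (σ : Fin N → ℝ) (t : ℝ) :
    IsClosed (Lin w σ t) := by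
  have : Lin w σ t = ⋂ x, {y | ∑ i, y i * (σ i * ⟪w i, x⟫) ≤ t * zn w x} := by
    ext y
    simp [Lin]
  rw [this]
  refine isClosed_iInter (fun x => isClosed_le ?_ continuous_const)
  fun_prop

theorem convex_Lin {n N : ℕ} (w : Fin N → E n) (σ : Fin N → ℝ) (t : ℝ) :
    Convex ℝ (Lin w σ t) := by
  intro y hy z hz a b ha hb hab x
  have h1 := hy x
  have h2 := hz x
  have e : ∑ i, (a • y + b • z) i * (σ i * ⟪w i, x⟫) =
      a * ∑ i, y i * (σ i * ⟪w i, x⟫) + b * ∑ i, z i * (σ i * ⟪w i, x⟫) := by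
    rw [Finset.mul_sum, Finset.mul_sum, ← Finset.sum_add_distrib]
    refine Finset.sum_congr rfl (fun i _ => ?_)
    simp only [Pi.add_apply, Pi.smul_apply, smul_eq_mul]
    ring
  rw [e]
  calc _ ≤ a * (t * zn w x) + b * (t * zn w x) :=
        add_le_add (mul_le_mul_of_nonneg_left h1 ha) (mul_le_mul_of_nonneg_left h2 hb)
    _ = t * zn w x := by rw [← add_mul, hab, one_mul]

theorem neg_mem_Lin {n N : ℕ} (w : Fin N → E n) (σ : Fin N → ℝ) (t : ℝ) :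
    ∀ y ∈ Lin w σ t, -y ∈ Lin w σ t := by
  intro y hy x
  have h := hy (-x)
  have e : zn w (-x) = zn w x := by simp [zn]
  rw [e] at h
  refine le_trans (le_of_eq ?_) h
  refine Finset.sum_congr rfl (fun i _ => ?_)
  simp

theorem lin_lewis (hB : TransportStatement) {n N : ℕ} {w : Fin N → E n} (hw : Lewis w)
    (h0 : ∀ i, w i ≠ 0) {τ : ℝ} (hτ : 0 ≤ τ) :
    ENNReal.ofReal ((2 * Real.pi) ^ ((N : ℝ) / 2) * Real.exp (-n / 2)) ≤
      gw (Lin w (fun i => τ / Real.sqrt ‖w i‖) (τ * Real.sqrt (Real.pi / 2))) := by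
  have h := hB N N (avec w) (fun j => ‖w j‖) (hw.sq_avec h0) (fun j => norm_nonneg _)
    (fun y => (hw.sum_sq_avec h0 y).le.trans (hw.norm_bvec_sq_le y))
    (Lin w (fun i => τ / Real.sqrt ‖w i‖) (τ * Real.sqrt (Real.pi / 2)))
    (isClosed_Lin _ _ _).measurableSet ?_
  · rwa [hw.sum_norm h0] at h
  · intro y x
    set z : Fin N → ℝ :=
      fun k => y k - ∑ j, ‖w j‖ * chi (∑ i, avec w j i * y i) * avec w j k with hz
    have e1 : ∑ i, z i * (τ / Real.sqrt ‖w i‖ * ⟪w i, x⟫) = τ * ⟪bvec w z, x⟫ := by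
      unfold bvec
      rw [sum_inner, Finset.mul_sum]
      refine Finset.sum_congr rfl (fun i _ => ?_)
      rw [real_inner_smul_left]
      ring
    have e2 : ⟪bvec w z, x⟫ ≤ Real.sqrt (Real.pi / 2) * zn w x := by
      rw [hz, hw.bvec_transport h0, sum_inner]
      unfold zn
      rw [Finset.mul_sum]
      refine Finset.sum_le_sum (fun j _ => ?_)
      rw [real_inner_smul_left]
      calc _ ≤ |psi (∑ i, avec w j i * y i) * ⟪w j, x⟫| := le_abs_self _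
        _ = |psi (∑ i, avec w j i * y i)| * |⟪w j, x⟫| := abs_mul _ _
        _ ≤ _ := mul_le_mul_of_nonneg_right (abs_psi_le _) (abs_nonneg _)
    rw [e1, mul_assoc]
    exact mul_le_mul_of_nonneg_left e2 hτ

theorem zn_nonneg {n N : ℕ} (w : Fin N → E n) (x : E n) : 0 ≤ zn w x :=
  Finset.sum_nonneg (fun _ _ => abs_nonneg _)

theorem lin_small (hB : TransportStatement) (hU : ContractStatement) {n N : ℕ} {w : Fin N → E n}
    (hw : Lewis w) (h0 : ∀ i, w i ≠ 0) {τ : ℝ} (hτ : 0 < τ) (σ : Fin N → ℝ)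
    (hσ : ∀ i, σ i ^ 2 * ‖w i‖ ≤ τ ^ 2) :
    ENNReal.ofReal ((2 * Real.pi) ^ ((N : ℝ) / 2) * Real.exp (-n / 2)) ≤
      gw (Lin w σ (τ * Real.sqrt (Real.pi / 2))) := by
  refine (lin_lewis hB hw h0 hτ.le).trans ?_
  have hs : ∀ i, 0 < Real.sqrt ‖w i‖ := fun i => Real.sqrt_pos.mpr (norm_pos_iff.mpr (h0 i))
  refine (hU N _ (isClosed_Lin _ _ _).measurableSet (convex_Lin _ _ _) (neg_mem_Lin _ _ _)
    (fun i => σ i * Real.sqrt ‖w i‖ / τ) (fun i => ?_)).trans (le_of_eq ?_)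
  · rw [abs_div, abs_of_pos hτ, div_le_one hτ]
    refine abs_le_of_sq_le_sq ?_ hτ.le
    rw [mul_pow, Real.sq_sqrt (norm_nonneg _)]
    exact hσ i
  · congr 1
    ext y
    refine forall_congr' (fun x => ?_)
    have e : ∑ i, σ i * Real.sqrt ‖w i‖ / τ * y i * (τ / Real.sqrt ‖w i‖ * ⟪w i, x⟫) =
        ∑ i, y i * (σ i * ⟪w i, x⟫) := by
      refine Finset.sum_congr rfl (fun i _ => ?_)
      have := (hs i).ne'
      field_simp
    rw [e]

/-- The one-sided body. -/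
def Abs {n N : ℕ} (w : Fin N → E n) (σ : Fin N → ℝ) (t : ℝ) : Set (Fin N → ℝ) :=
  {y | ∀ x, ∑ i, y i * |σ i * ⟪w i, x⟫| ≤ t * zn w x}

theorem isClosed_Abs {n N : ℕ} (w : Fin N → E n) (σ : Fin N → ℝ) (t : ℝ) :
    IsClosed (Abs w σ t) := by
  have : Abs w σ t = ⋂ x, {y | ∑ i, y i * |σ i * ⟪w i, x⟫| ≤ t * zn w x} := by
    ext y
    simp [Abs]
  rw [this]
  refine isClosed_iInter (fun x => isClosed_le ?_ continuous_const)
  fun_prop

theorem abs_small (hB : TransportStatement) (hU : ContractStatement) {n N : ℕ} {w : Fin N → E n}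
    (hw : Lewis w) (h0 : ∀ i, w i ≠ 0) {τ : ℝ} (hτ : 0 < τ) (σ : Fin N → ℝ)
    (hσ : ∀ i, σ i ^ 2 * ‖w i‖ ≤ τ ^ 2) :
    ENNReal.ofReal ((2 * Real.pi) ^ ((N : ℝ) / 2) * Real.exp (-n / 2)) ≤
      gw (Abs w σ (τ * Real.sqrt (Real.pi / 2))) :=
  (lin_small hB hU hw h0 hτ σ hσ).trans
    (replacement (fun i x => σ i * ⟪w i, x⟫) (fun x => τ * Real.sqrt (Real.pi / 2) * zn w x))

end

end Pool.Agent.Lib.MP_2c1b2b_gt
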