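import Pool.Agent.Lib.MP_2c1b2b_gt.H68.Gauss

/-!
# MP_2c1b2b_gt (helper68): tilted Gaussian measures of the one-sided body
-/

open MeasureTheory
open scoped BigOperators ENNReal Pointwise RealInnerProductSpace

namespace Pool.Agent.Lib.MP_2c1b2b_gt

noncomputable section

/-- Diagonal affine change of variables. -/
theorem lintegral_diag {N : ℕ} (σ b : Fin N → ℝ) (hσ : ∀ i, 0 < σ i)
    (f : (Fin N → ℝ) → ℝ≥0∞) (hf : Measurable f) :
    ∫⁻ z, f z = ENNReal.ofReal (∏ i, σ i) *
      ∫⁻ y : Fin N → ℝ, f (fun i => σ i * y i + b i) := by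
  classical
  have hdet : (Matrix.diagonal σ).det = ∏ i, σ i := Matrix.det_diagonal
  have hpos : 0 < ∏ i, σ i := Finset.prod_pos (fun i _ => hσ i)
  have h := Real.smul_map_diagonal_volume_pi (D := σ) (by rw [hdet]; exact hpos.ne')
  rw [hdet, abs_of_pos hpos] at h
  have h2 : ∫⁻ z, f z = ∫⁻ z, f (z + b) := (lintegral_add_right_eq_self f b).symm
  rw [h2]
  nth_rw 1 [← h]
  rw [lintegral_smul_measure, smul_eq_mul, lintegral_map]
  · congr 1
    refine lintegral_congr (fun y => ?_)
    congr 1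
    funext i
    simp [Matrix.mulVec_diagonal]
  · exact hf.comp (measurable_id.add_const b)
  · exact (Matrix.toLin' (Matrix.diagonal σ)).continuous_of_finiteDimensional.measurable

/-- The one-sided body `K`. -/
def KK {n N : ℕ} (w : Fin N → E n) (T : ℝ) : Set (Fin N → ℝ) :=
  {z | ∀ x, ∑ i, z i * |⟪w i, x⟫| ≤ T * zn w x}

theorem isClosed_KK {n N : ℕ} (w : Fin N → E n) (T : ℝ) : IsClosed (KK w T) := by
  have : KK w T = ⋂ x, {y | ∑ i, y i * |⟪w i, x⟫| ≤ T * zn w x} := by
    ext y
    simp [KK]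
  rw [this]
  refine isClosed_iInter (fun x => isClosed_le ?_ continuous_const)
  fun_prop

theorem convex_KK {n N : ℕ} (w : Fin N → E n) (T : ℝ) : Convex ℝ (KK w T) := by
  intro y hy z hz a b ha hb hab x
  have h1 := hy x
  have h2 := hz x
  have e : ∑ i, (a • y + b • z) i * |⟪w i, x⟫| =
      a * ∑ i, y i * |⟪w i, x⟫| + b * ∑ i, z i * |⟪w i, x⟫| := by
    rw [Finset.mul_sum, Finset.mul_sum, ← Finset.sum_add_distrib]
    refine Finset.sum_congr rfl (fun i _ => ?_)
    simp only [Pi.add_apply, Pi.smul_apply, smul_eq_mul]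
    ring
  rw [e]
  calc _ ≤ a * (T * zn w x) + b * (T * zn w x) :=
        add_le_add (mul_le_mul_of_nonneg_left h1 ha) (mul_le_mul_of_nonneg_left h2 hb)
    _ = T * zn w x := by rw [← add_mul, hab, one_mul]

theorem mem_KK_of_le {n N : ℕ} (w : Fin N → E n) (T : ℝ) (z : Fin N → ℝ) (hz : ∀ i, |z i| ≤ T) :
    z ∈ KK w T := by
  intro x
  unfold zn
  rw [Finset.mul_sum]
  exact Finset.sum_le_sum (fun i _ =>
    mul_le_mul_of_nonneg_right ((le_abs_self _).trans (hz i)) (abs_nonneg _))

theorem mem_KK_tilt {n N : ℕ} (w : Fin N → E n) (t : ℝ) (σ s y : Fin N → ℝ) (ht : 0 ≤ t)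
    (hσ : ∀ i, 0 < σ i) (hs : ∀ i, |s i| ≤ 1) (hy : y ∈ Abs w σ t) :
    (fun i => σ i * y i + t * s i) ∈ KK w (2 * t) := by
  intro x
  have h1 := hy x
  have h2 : ∑ i, (t * s i) * |⟪w i, x⟫| ≤ t * zn w x := by
    unfold zn
    rw [Finset.mul_sum]
    refine Finset.sum_le_sum (fun i _ => mul_le_mul_of_nonneg_right ?_ (abs_nonneg _))
    calc t * s i ≤ t * 1 := mul_le_mul_of_nonneg_left ((le_abs_self _).trans (hs i)) ht
      _ = t := mul_one t
  have h3 : ∑ i, (σ i * y i + t * s i) * |⟪w i, x⟫| =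
      ∑ i, y i * |σ i * ⟪w i, x⟫| + ∑ i, (t * s i) * |⟪w i, x⟫| := by
    rw [← Finset.sum_add_distrib]
    refine Finset.sum_congr rfl (fun i _ => ?_)
    rw [abs_mul, abs_of_pos (hσ i)]
    ring
  rw [h3]
  linarith

/-- Bounds for the first and second moments on a set of large Gaussian measure. -/
theorem moments {n N : ℕ} {S : Set (Fin N → ℝ)} (hnN : n ≤ N)
    (hS : ENNReal.ofReal ((2 * Real.pi) ^ ((N : ℝ) / 2) * Real.exp (-n / 2)) ≤ gw S) :
    0 < ∫ x in S, ge x ∧ Real.sqrt (2 * Real.pi) ^ N * Real.exp (-n / 2) ≤ ∫ x in S, ge x ∧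
      (∀ l : Fin N → ℝ, sq l = n → |(∫ x in S, (∑ i, l i * x i) * ge x) / ∫ x in S, ge x| ≤ n) ∧
      (∫ x in S, sq x * ge x) / (∫ x in S, ge x) ≤ (2 * Real.log 2 + 2) * N := by
  set G := ∫ x in S, ge x with hG
  have hconv : (2 * Real.pi) ^ ((N : ℝ) / 2) = Real.sqrt (2 * Real.pi) ^ N := by
    rw [Real.sqrt_eq_rpow, ← Real.rpow_natCast, ← Real.rpow_mul (by positivity)]
    congr 1
    ring
  rw [hconv, gw_eq_ofReal] at hS
  have hp : 0 < Real.sqrt (2 * Real.pi) ^ N * Real.exp (-(n : ℝ) / 2) := by positivity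
  have hG0 : 0 ≤ G := integral_nonneg (fun x => (ge_pos x).le)
  have hle : Real.sqrt (2 * Real.pi) ^ N * Real.exp (-(n : ℝ) / 2) ≤ G :=
    (ENNReal.ofReal_le_ofReal_iff hG0).mp hS
  have hGpos : 0 < G := lt_of_lt_of_le hp hle
  have key : ∀ l : Fin N → ℝ, sq l = n → (∫ x in S, (∑ i, l i * x i) * ge x) / G ≤ n := by
    intro l hl
    have h := entropy (M := Real.exp (sq l / 2) * Real.sqrt (2 * Real.pi) ^ N) hGpos hG.symm
      (fun x => ∑ i, l i * x i) (integrable_lin_ge l).integrableOn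
      (integrable_exp_lin l).integrableOn ?_
    · have h2 : Real.exp ((∫ x in S, (∑ i, l i * x i) * ge x) / G) *
          (Real.sqrt (2 * Real.pi) ^ N * Real.exp (-(n : ℝ) / 2)) ≤
          Real.exp (sq l / 2) * Real.sqrt (2 * Real.pi) ^ N :=
        (mul_le_mul_of_nonneg_left hle (Real.exp_pos _).le).trans h
      have h3 : Real.exp ((∫ x in S, (∑ i, l i * x i) * ge x) / G + -(n : ℝ) / 2) ≤
          Real.exp (sq l / 2) := by
        rw [Real.exp_add]
        have h4 : 0 < Real.sqrt (2 * Real.pi) ^ N := by positivity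
        refine le_of_mul_le_mul_right ?_ h4
        calc _ = Real.exp ((∫ x in S, (∑ i, l i * x i) * ge x) / G) *
          (Real.sqrt (2 * Real.pi) ^ N * Real.exp (-(n : ℝ) / 2)) := by ring
          _ ≤ _ := h2
      have h5 := Real.exp_le_exp.mp h3
      rw [hl] at h5
      linarith
    · rw [← integral_exp_lin]
      exact setIntegral_le_integral (integrable_exp_lin l)
        (Filter.Eventually.of_forall (fun x => mul_nonneg (Real.exp_pos _).le (ge_pos x).le))
  refine ⟨hGpos, hle, fun l hl => ?_, ?_⟩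
  · rw [abs_le]
    refine ⟨?_, key l hl⟩
    have h := key (fun i => - l i) (by rw [← hl]; simp [sq])
    have e : ∫ x in S, (∑ i, (fun i => - l i) i * x i) * ge x =
        - ∫ x in S, (∑ i, l i * x i) * ge x := by
      rw [← integral_neg]
      congr 1
      funext x
      simp only [neg_mul, Finset.sum_neg_distrib]
    rw [e, neg_div] at h
    linarith
  · have h := entropy (M := Real.sqrt (4 * Real.pi) ^ N) hGpos hG.symm
      (fun x => sq x / 4) ?_ integrable_exp_sq.integrableOn ?_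
    · have e : ∫ x in S, sq x / 4 * ge x = (∫ x in S, sq x * ge x) / 4 := by
        rw [← integral_div]
        congr 1
        funext x
        ring
      rw [e] at h
      set q := (∫ x in S, sq x * ge x) / G with hq
      have e2 : (∫ x in S, sq x * ge x) / 4 / G = q / 4 := by
        rw [hq]; ring
      rw [e2] at h
      have h2 : Real.exp (q / 4) * (Real.sqrt (2 * Real.pi) ^ N * Real.exp (-(n : ℝ) / 2)) ≤
          Real.sqrt (4 * Real.pi) ^ N :=
        (mul_le_mul_of_nonneg_left hle (Real.exp_pos _).le).trans h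
      have h3 : Real.sqrt (4 * Real.pi) ^ N = Real.exp (Real.log 2 / 2 * N) *
          Real.sqrt (2 * Real.pi) ^ N := by
        have : Real.sqrt (4 * Real.pi) = Real.exp (Real.log 2 / 2) * Real.sqrt (2 * Real.pi) := by
          rw [show (4 : ℝ) * Real.pi = 2 * (2 * Real.pi) by ring, Real.sqrt_mul (by norm_num),
            Real.exp_half, Real.exp_log (by norm_num)]
        rw [this, mul_pow, ← Real.exp_nat_mul]
        congr 2
        ring
      rw [h3] at h2
      have h4 : 0 < Real.sqrt (2 * Real.pi) ^ N := by positivity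
      have h5 : Real.exp (q / 4 + -(n : ℝ) / 2) ≤ Real.exp (Real.log 2 / 2 * N) := by
        rw [Real.exp_add]
        refine le_of_mul_le_mul_right ?_ h4
        calc _ = Real.exp (q / 4) * (Real.sqrt (2 * Real.pi) ^ N * Real.exp (-(n : ℝ) / 2)) := by
              ring
          _ ≤ _ := h2
      have h6 := Real.exp_le_exp.mp h5
      have h7 : (n : ℝ) ≤ N := by exact_mod_cast hnN
      linarith
    · have h0 : Integrable (fun x : Fin N → ℝ => sq x / 4 * ge x) :=
        ((integrable_sq_ge (N := N)).const_mul (1 / 4)).congr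
          (Filter.Eventually.of_forall (fun x => by ring))
      exact h0.integrableOn
    · rw [← integral_exp_sq]
      exact setIntegral_le_integral integrable_exp_sq
        (Filter.Eventually.of_forall (fun x => mul_nonneg (Real.exp_pos _).le (ge_pos x).le))

end

end Pool.Agent.Lib.MP_2c1b2b_gt
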