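import Pool.Agent.Lib.MP_2c1b2b_gt.H68.Tilt

/-!
# MP_2c1b2b_gt (helper68): the lower bound for the tilted integrals
-/

open MeasureTheory
open scoped BigOperators ENNReal Pointwise RealInnerProductSpace

namespace Pool.Agent.Lib.MP_2c1b2b_gt

noncomputable section

/-- The choice of the standard deviations. -/
theorem exists_sigma {n N : ℕ} (hn : 1 ≤ n) (hnN : n ≤ N) (c : Fin N → ℝ) (hc : ∀ i, 0 ≤ c i)
    (hcs : ∑ i, c i = n) (θ : Fin N → ℝ) :
    ∃ σ : Fin N → ℝ, (∀ i, 0 < σ i) ∧ (∀ i, σ i ^ 2 * c i ≤ 3 * n / N) ∧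
      (∀ i, σ i ^ 2 ≤ 3) ∧ 1 ≤ ∏ i, σ i ∧
      ∑ i, (θ i * σ i) ^ 2 ≤ 3 / N * (∑ i, |θ i|) ^ 2 := by
  have hN : 0 < N := lt_of_lt_of_le hn hnN
  have hN' : (0 : ℝ) < N := by exact_mod_cast hN
  have hn' : (0 : ℝ) < n := by exact_mod_cast hn
  obtain ⟨r, hr0, hr1, hrθ⟩ : ∃ r : Fin N → ℝ, (∀ i, 0 ≤ r i) ∧ ∑ i, r i = 1 ∧
      ∀ i, |θ i| = (∑ j, |θ j|) * r i := by
    rcases eq_or_ne (∑ i, |θ i|) 0 with h | h
    · refine ⟨fun _ => 1 / N, fun i => by positivity, ?_, fun i => ?_⟩
      · simp only [Finset.sum_const, Finset.card_univ, Fintype.card_fin, nsmul_eq_mul]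
        field_simp
      · rw [h, zero_mul]
        exact (Finset.sum_eq_zero_iff_of_nonneg (fun i _ => abs_nonneg _)).mp h i
          (Finset.mem_univ i)
    · refine ⟨fun i => |θ i| / ∑ j, |θ j|, fun i => by positivity, ?_, fun i => ?_⟩
      · rw [← Finset.sum_div, div_self h]
      · field_simp
  set p : Fin N → ℝ := fun i => (c i / n + 1 / N + r i) / 3 with hp
  have hp0 : ∀ i, 1 / (3 * N) ≤ p i := by
    intro i
    have h1 : 0 ≤ c i / n := div_nonneg (hc i) hn'.le
    have h2 := hr0 i
    simp only [hp]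
    have : (1 : ℝ) / (3 * N) = (1 / N) / 3 := by field_simp
    rw [this]
    linarith
  have hpp : ∀ i, 0 < p i := fun i => lt_of_lt_of_le (by positivity) (hp0 i)
  have hps : ∑ i, p i = 1 := by
    simp only [hp]
    rw [← Finset.sum_div, Finset.sum_add_distrib, Finset.sum_add_distrib, ← Finset.sum_div, hcs,
      hr1]
    simp only [Finset.sum_const, Finset.card_univ, Fintype.card_fin, nsmul_eq_mul]
    field_simp
    norm_num
  have hq : ∀ i, 0 < N * p i := fun i => mul_pos hN' (hpp i)
  refine ⟨fun i => (Real.sqrt (N * p i))⁻¹, fun i => inv_pos.mpr (Real.sqrt_pos.mpr (hq i)),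
    fun i => ?_, fun i => ?_, ?_, ?_⟩
  · rw [inv_pow, Real.sq_sqrt (hq i).le, inv_mul_eq_div, div_le_div_iff₀ (hq i) hN']
    have h2 : c i / n ≤ 3 * p i := by
      simp only [hp]
      have := hr0 i
      have : (0 : ℝ) < 1 / N := by positivity
      linarith
    rw [div_le_iff₀ hn'] at h2
    nlinarith
  · rw [inv_pow, Real.sq_sqrt (hq i).le]
    have h1 := hp0 i
    rw [div_le_iff₀ (by positivity)] at h1
    rw [inv_le_comm₀ (hq i) (by norm_num)]
    rw [inv_le_iff_one_le_mul₀ (by norm_num)]
    linarith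
  · -- AM-GM
    have h1 : ∏ i, (N * p i) ≤ 1 := by
      have h2 := Real.geom_mean_le_arith_mean_weighted Finset.univ (fun _ : Fin N => (1 : ℝ) / N)
        (fun i => N * p i) (fun _ _ => by positivity) (by simp; field_simp)
        (fun i _ => (hq i).le)
      have h3 : ∑ i : Fin N, (1 : ℝ) / N * (N * p i) = 1 := by
        refine Eq.trans (Finset.sum_congr rfl (fun i _ => ?_)) hps
        field_simp
      rw [h3, Real.finsetProd_rpow _ _ (fun i _ => (hq i).le)] at h2
      by_contra hcon
      push Not at hcon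
      have h4 : 1 < (∏ i, (N * p i)) ^ ((1 : ℝ) / N) := Real.one_lt_rpow hcon (by positivity)
      linarith
    rw [Finset.prod_inv_distrib]
    have h5 : ∏ i, Real.sqrt (N * p i) ≤ 1 := by
      rw [← Real.sqrt_prod _ (fun i _ => (hq i).le)]
      exact Real.sqrt_le_one.mpr h1
    have h6 : 0 < ∏ i, Real.sqrt (N * p i) :=
      Finset.prod_pos (fun i _ => Real.sqrt_pos.mpr (hq i))
    exact (one_le_inv₀ h6).mpr h5
  · have h1 : ∀ i, (θ i * (Real.sqrt (N * p i))⁻¹) ^ 2 ≤ 3 / N * (∑ j, |θ j|) ^ 2 * r i := by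
      intro i
      rw [mul_pow, inv_pow, Real.sq_sqrt (hq i).le, ← sq_abs (θ i), ← div_eq_mul_inv,
        div_le_iff₀ (hq i)]
      have h2 : r i ≤ 3 * p i := by
        simp only [hp]
        have : (0 : ℝ) < 1 / N := by positivity
        have h1 : 0 ≤ c i / n := div_nonneg (hc i) hn'.le
        linarith
      have h3 : 3 / N * (∑ j, |θ j|) ^ 2 * r i * (N * p i) =
          (∑ j, |θ j|) ^ 2 * r i * (3 * p i) := by
        field_simp
      rw [h3, hrθ i, mul_pow]
      have h4 : 0 ≤ (∑ j, |θ j|) ^ 2 * r i := mul_nonneg (sq_nonneg _) (hr0 i)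
      calc (∑ j, |θ j|) ^ 2 * r i ^ 2 = (∑ j, |θ j|) ^ 2 * r i * r i := by ring
        _ ≤ _ := mul_le_mul_of_nonneg_left h2 h4
    calc _ ≤ ∑ i, 3 / N * (∑ j, |θ j|) ^ 2 * r i := Finset.sum_le_sum (fun i _ => h1 i)
      _ = _ := by rw [← Finset.mul_sum, hr1, mul_one]

/-- The tilted integrals of the one-sided body. -/
theorem tilt {n N : ℕ} (hn : 1 ≤ n) (hnN : n ≤ N) (w : Fin N → E n) (c : Fin N → ℝ)
    (hc : ∀ i, 0 ≤ c i) (hcs : ∑ i, c i = n) {t : ℝ}
    (ht : t = Real.sqrt (3 * n / N) * Real.sqrt (Real.pi / 2))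
    (H : ∀ σ : Fin N → ℝ, (∀ i, σ i ^ 2 * c i ≤ 3 * n / N) →
      ENNReal.ofReal ((2 * Real.pi) ^ ((N : ℝ) / 2) * Real.exp (-n / 2)) ≤ gw (Abs w σ t))
    (θ : Fin N → ℝ) :
    ENNReal.ofReal (Real.exp (-(15 * N))) ≤
      ∫⁻ z in KK w (2 * t), ENNReal.ofReal (Real.exp (∑ i, θ i * z i - sq z / 2)) := by
  have hN : 0 < N := lt_of_lt_of_le hn hnN
  have hN' : (0 : ℝ) < N := by exact_mod_cast hN
  have hn' : (0 : ℝ) < n := by exact_mod_cast hn
  have hnN' : (n : ℝ) ≤ N := by exact_mod_cast hnN
  have ht0 : 0 ≤ t := by rw [ht]; positivity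
  have ht2 : t ^ 2 = 3 * n / N * (Real.pi / 2) := by
    rw [ht, mul_pow, Real.sq_sqrt (by positivity), Real.sq_sqrt (by positivity)]
  obtain ⟨σ, hσ, hσc, hσ3, hσ1, hσθ⟩ := exists_sigma hn hnN c hc hcs θ
  set S := Abs w σ t with hS
  obtain ⟨hG, hGl, hm1, hm2⟩ := moments hnN (H σ hσc)
  rw [← hS] at hG hGl hm1 hm2
  set G := ∫ x in S, ge x with hGdef
  set s : Fin N → ℝ := fun i => SignType.sign (θ i) with hs
  have hs1 : ∀ i, |s i| ≤ 1 := by
    intro i
    simp only [hs]
    rcases lt_trichotomy (θ i) 0 with h | h | h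
    · simp [sign_neg h]
    · simp [h]
    · simp [sign_pos h]
  have hsθ : ∀ i, θ i * s i = |θ i| := by
    intro i
    simp only [hs]
    rw [mul_comm]
    exact sign_mul_self (θ i)
  set A := ∑ i, |θ i| with hA
  have hA0 : 0 ≤ A := Finset.sum_nonneg (fun _ _ => abs_nonneg _)
  -- the exponent
  set X : (Fin N → ℝ) → ℝ := fun y =>
    (∑ i, (θ i * σ i) * y i) + (-3) * sq y + (t * A - t ^ 2 * N) with hX
  have hXle : ∀ y, X y ≤ ∑ i, θ i * (σ i * y i + t * s i) -
      sq (fun i => σ i * y i + t * s i) / 2 := by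
    intro y
    have e1 : ∑ i, θ i * (σ i * y i + t * s i) = (∑ i, (θ i * σ i) * y i) + t * A := by
      rw [hA, Finset.mul_sum, ← Finset.sum_add_distrib]
      refine Finset.sum_congr rfl (fun i _ => ?_)
      rw [← hsθ i]
      ring
    have e2 : sq (fun i => σ i * y i + t * s i) ≤ 6 * sq y + 2 * (t ^ 2 * N) := by
      unfold sq
      have : 2 * (t ^ 2 * N) = ∑ i : Fin N, 2 * t ^ 2 := by
        simp only [Finset.sum_const, Finset.card_univ, Fintype.card_fin, nsmul_eq_mul]
        ring
      rw [this, Finset.mul_sum, ← Finset.sum_add_distrib]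
      refine Finset.sum_le_sum (fun i _ => ?_)
      have h1 : (σ i * y i) ^ 2 ≤ 3 * y i ^ 2 := by
        rw [mul_pow]
        exact mul_le_mul_of_nonneg_right (hσ3 i) (sq_nonneg _)
      have h2 : (t * s i) ^ 2 ≤ t ^ 2 := by
        rw [mul_pow, ← sq_abs (s i)]
        have := hs1 i
        have h3 : |s i| ^ 2 ≤ 1 := by
          have := abs_nonneg (s i)
          nlinarith
        calc t ^ 2 * |s i| ^ 2 ≤ t ^ 2 * 1 := mul_le_mul_of_nonneg_left h3 (sq_nonneg t)
          _ = t ^ 2 := mul_one _
      nlinarith [sq_nonneg (σ i * y i - t * s i)]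
    simp only [hX]
    rw [e1]
    linarith
  have hXint : IntegrableOn (fun y => X y * ge y) S := by
    have h1 : Integrable (fun y : Fin N → ℝ => X y * ge y) := by
      have := ((integrable_lin_ge (fun i => θ i * σ i)).add
        ((integrable_sq_ge (N := N)).const_mul (-3))).add
        ((integrable_ge (N := N)).const_mul (t * A - t ^ 2 * N))
      refine this.congr (Filter.Eventually.of_forall (fun y => ?_))
      simp only [hX, Pi.add_apply]
      ring
    exact h1.integrableOn
  have hXval : (∫ y in S, X y * ge y) / G =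
      (∫ y in S, (∑ i, (θ i * σ i) * y i) * ge y) / G + (-3) * ((∫ y in S, sq y * ge y) / G) +
        (t * A - t ^ 2 * N) := by
    have h1 : ∫ y in S, X y * ge y = (∫ y in S, (∑ i, (θ i * σ i) * y i) * ge y) +
        (-3) * (∫ y in S, sq y * ge y) + (t * A - t ^ 2 * N) * G := by
      rw [hGdef, ← integral_const_mul, ← integral_const_mul, ← integral_add, ← integral_add]
      · congr 1
        funext y
        simp only [hX]
        ring
      · exact (integrable_lin_ge _).integrableOn.add (integrable_sq_ge.integrableOn.const_mul _)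
      · exact integrable_ge.integrableOn.const_mul _
      · exact (integrable_lin_ge _).integrableOn
      · exact integrable_sq_ge.integrableOn.const_mul _
    rw [h1]
    field_simp
  -- the linear term
  have hlin : -(t * A) ≤ (∫ y in S, (∑ i, (θ i * σ i) * y i) * ge y) / G := by
    set L := sq (fun i => θ i * σ i) with hL
    have hL0 : 0 ≤ L := sq_nonneg' _
    have hLle : L ≤ 3 / N * A ^ 2 := hσθ
    rcases eq_or_lt_of_le hL0 with h | h
    · have h0 : ∀ i, θ i * σ i = 0 := by
        intro i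
        have := (Finset.sum_eq_zero_iff_of_nonneg (fun i _ => sq_nonneg (θ i * σ i))).mp h.symm i
          (Finset.mem_univ i)
        exact pow_eq_zero_iff (two_ne_zero) |>.mp this
      simp only [h0, zero_mul, Finset.sum_const_zero, integral_zero, zero_div]
      have := mul_nonneg ht0 hA0
      linarith
    · set k := Real.sqrt (n / L) with hk
      have hk0 : 0 < k := Real.sqrt_pos.mpr (by positivity)
      have h1 := hm1 (fun i => k * (θ i * σ i)) (by
        have : sq (fun i => k * (θ i * σ i)) = k ^ 2 * L := by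
          rw [hL]
          unfold sq
          rw [Finset.mul_sum]
          refine Finset.sum_congr rfl (fun i _ => ?_)
          ring
        rw [this, hk, Real.sq_sqrt (by positivity)]
        field_simp)
      have e : ∫ x in S, (∑ i, (fun i => k * (θ i * σ i)) i * x i) * ge x =
          k * ∫ y in S, (∑ i, (θ i * σ i) * y i) * ge y := by
        rw [← integral_const_mul]
        congr 1
        funext y
        rw [← mul_assoc, Finset.mul_sum]
        congr 1
        refine Finset.sum_congr rfl (fun i _ => ?_)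
        ring
      rw [e, mul_div_assoc, abs_mul, abs_of_pos hk0] at h1
      set q := (∫ y in S, (∑ i, (θ i * σ i) * y i) * ge y) / G with hq
      have h2 : |q| ≤ n / k := by
        rw [le_div_iff₀ hk0]
        linarith
      have h3 : n / k = Real.sqrt (n * L) := by
        rw [div_eq_iff hk0.ne', hk, ← Real.sqrt_mul (by positivity)]
        rw [show (n : ℝ) * L * (n / L) = (n : ℝ) ^ 2 by field_simp, Real.sqrt_sq hn'.le]
      have h4 : Real.sqrt (n * L) ≤ t * A := by
        rw [Real.sqrt_le_left (mul_nonneg ht0 hA0), mul_pow, ht2]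
        have h5 : (n : ℝ) * L ≤ 3 * n / N * A ^ 2 := by
          calc (n : ℝ) * L ≤ n * (3 / N * A ^ 2) := mul_le_mul_of_nonneg_left hLle hn'.le
            _ = _ := by ring
        have h6 : 1 ≤ Real.pi / 2 := by
          have := Real.pi_gt_three
          linarith
        have h7 : 0 ≤ 3 * n / N * A ^ 2 := by positivity
        calc (n : ℝ) * L ≤ 3 * n / N * A ^ 2 * 1 := by rw [mul_one]; exact h5
          _ ≤ 3 * n / N * A ^ 2 * (Real.pi / 2) := mul_le_mul_of_nonneg_left h6 h7
          _ = _ := by ring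
      have h5 : |q| ≤ t * A := by linarith [h2, h3.le, h4]
      exact (abs_le.mp h5).1
  -- the lower bound of the mean
  have hmean : -(14.9 * N) ≤ (∫ y in S, X y * ge y) / G := by
    rw [hXval]
    have hl2 := Real.log_two_lt_d9
    have hpi := Real.pi_lt_d2
    have e3 : t ^ 2 * N = 3 * n * (Real.pi / 2) := by
      rw [ht2]
      field_simp
    have e4 : t ^ 2 * N ≤ 3 * N * (3.15 / 2) := by
      rw [e3]
      have : 0 ≤ Real.pi := Real.pi_pos.le
      nlinarith
    have e5 : (2 * Real.log 2 + 2) * N ≤ (2 * 0.6931471808 + 2) * N := by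
      refine mul_le_mul_of_nonneg_right ?_ hN'.le
      linarith
    nlinarith
  have hXe : Integrable (fun y : Fin N → ℝ => Real.exp (X y) * ge y) := by
    have h := (integrable_quad_pi (N := N) (show (0 : ℝ) < 7 / 2 by norm_num)
      (fun i => θ i * σ i)).const_mul (Real.exp (t * A - t ^ 2 * N))
    refine h.congr (Filter.Eventually.of_forall (fun y => ?_))
    simp only [hX, ge]
    rw [← Real.exp_add, ← Real.exp_add]
    congr 1
    ring
  have hexp : Real.exp (-(14.9 * N)) * G ≤ ∫ y in S, Real.exp (X y) * ge y := by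
    have h := entropy (M := ∫ y in S, Real.exp (X y) * ge y) hG hGdef.symm X hXint
      hXe.integrableOn le_rfl
    refine le_trans ?_ h
    exact mul_le_mul_of_nonneg_right (Real.exp_le_exp.mpr hmean) hG.le
  have hfin : Real.exp (-(15 * N)) ≤ Real.exp (-(14.9 * N)) * G := by
    have h1 : Real.exp (1 / 2) ≤ Real.sqrt (2 * Real.pi) := by
      rw [Real.exp_half]
      refine Real.sqrt_le_sqrt ?_
      have := Real.exp_one_lt_d9
      have := Real.pi_gt_three
      linarith
    have h2 : Real.exp (N / 2) ≤ Real.sqrt (2 * Real.pi) ^ N := by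
      calc Real.exp (N / 2) = Real.exp (1 / 2) ^ N := by
            rw [← Real.exp_nat_mul]
            congr 1
            ring
        _ ≤ _ := pow_le_pow_left₀ (Real.exp_pos _).le h1 N
    have h3 : 1 ≤ G := by
      refine le_trans ?_ hGl
      calc (1 : ℝ) = Real.exp (n / 2) * Real.exp (-(n : ℝ) / 2) := by
            rw [← Real.exp_add, show (n : ℝ) / 2 + -(n : ℝ) / 2 = 0 by ring, Real.exp_zero]
        _ ≤ Real.exp (N / 2) * Real.exp (-(n : ℝ) / 2) :=
            mul_le_mul_of_nonneg_right (Real.exp_le_exp.mpr (by linarith)) (Real.exp_pos _).le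
        _ ≤ _ := mul_le_mul_of_nonneg_right h2 (Real.exp_pos _).le
    calc Real.exp (-(15 * N)) ≤ Real.exp (-(14.9 * N)) := Real.exp_le_exp.mpr (by linarith)
      _ = Real.exp (-(14.9 * N)) * 1 := (mul_one _).symm
      _ ≤ _ := mul_le_mul_of_nonneg_left h3 (Real.exp_pos _).le
  have hKm : MeasurableSet (KK w (2 * t)) := (isClosed_KK _ _).measurableSet
  have hSm : MeasurableSet S := (isClosed_Abs _ _ _).measurableSet
  have hfm : Measurable (fun z : Fin N → ℝ =>
      ENNReal.ofReal (Real.exp (∑ i, θ i * z i - sq z / 2))) := by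
    have : Continuous (fun z : Fin N → ℝ => Real.exp (∑ i, θ i * z i - sq z / 2)) := by
      have := continuous_sq (N := N)
      fun_prop
    exact this.measurable.ennreal_ofReal
  rw [← lintegral_indicator hKm, lintegral_diag σ (fun i => t * s i) hσ _ (hfm.indicator hKm)]
  calc ENNReal.ofReal (Real.exp (-(15 * N)))
      ≤ ENNReal.ofReal (∫ y in S, Real.exp (X y) * ge y) :=
        ENNReal.ofReal_le_ofReal (hfin.trans hexp)
    _ = ∫⁻ y in S, ENNReal.ofReal (Real.exp (X y) * ge y) :=
        ofReal_integral_eq_lintegral_ofReal hXe.integrableOn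
          (Filter.Eventually.of_forall (fun y => mul_nonneg (Real.exp_pos _).le (ge_pos y).le))
    _ = ∫⁻ y, S.indicator (fun y => ENNReal.ofReal (Real.exp (X y) * ge y)) y :=
        (lintegral_indicator hSm _).symm
    _ ≤ ∫⁻ y : Fin N → ℝ, (KK w (2 * t)).indicator (fun z : Fin N → ℝ =>
          ENNReal.ofReal (Real.exp (∑ i, θ i * z i - sq z / 2)))
          (fun i => σ i * y i + t * s i) := by
        refine lintegral_mono (fun y => ?_)
        by_cases hy : y ∈ S
        · rw [Set.indicator_of_mem hy,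
            Set.indicator_of_mem (mem_KK_tilt w t σ s y ht0 hσ hs1 hy)]
          refine ENNReal.ofReal_le_ofReal ?_
          have h1 : ge y ≤ 1 := by
            unfold ge
            rw [Real.exp_le_one_iff]
            have := sq_nonneg' y
            linarith
          calc Real.exp (X y) * ge y ≤ Real.exp (X y) * 1 :=
                mul_le_mul_of_nonneg_left h1 (Real.exp_pos _).le
            _ = Real.exp (X y) := mul_one _
            _ ≤ _ := Real.exp_le_exp.mpr (hXle y)
        · rw [Set.indicator_of_notMem hy]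
          exact zero_le
    _ = 1 * ∫⁻ y : Fin N → ℝ, (KK w (2 * t)).indicator (fun z : Fin N → ℝ =>
          ENNReal.ofReal (Real.exp (∑ i, θ i * z i - sq z / 2)))
          (fun i => σ i * y i + t * s i) := (one_mul _).symm
    _ ≤ _ := by
        refine mul_le_mul_left ?_ _
        rw [← ENNReal.ofReal_one]
        exact ENNReal.ofReal_le_ofReal hσ1

end

end Pool.Agent.Lib.MP_2c1b2b_gt
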