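import Pool.Agent.Lib.MP_2c1b2b_gt.H68.Vol
import Pool.Agent.Lib.MP_2c1b2b_gt.H32.Sym
import Pool.Agent.Lib.MP_2c1b2b_gt.H45.Lewis
import Pool.Agent.Lib.MP_2c1b2b_gt.H3.UMain

/-!
# MP_2c1b2b_gt (helper68): the Gaussian measure of the two-sided body
-/

open MeasureTheory
open scoped BigOperators ENNReal Pointwise RealInnerProductSpace

namespace Pool.Agent.Lib.MP_2c1b2b_gt

noncomputable section

theorem volStatement_of (hB : TransportStatement) : VolStatement := by
  intro n N hn hnN v hv hspan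
  have hN : 0 < N := lt_of_lt_of_le hn hnN
  have hN' : (0 : ℝ) < N := by exact_mod_cast hN
  have hn' : (0 : ℝ) < n := by exact_mod_cast hn
  obtain ⟨A, hA⟩ := H45.lewisStatement n N v hv hspan
  set w : Fin N → E n := fun i => A (v i) with hwdef
  have hw : Lewis w := hA
  have h0 : ∀ i, w i ≠ 0 := fun i h => hv i (A.map_eq_zero_iff.mp h)
  set τ := Real.sqrt (3 * n / N) with hτ
  have hτ0 : 0 < τ := Real.sqrt_pos.mpr (by positivity)
  set t := τ * Real.sqrt (Real.pi / 2) with ht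
  have ht0 : 0 < t := mul_pos hτ0 (Real.sqrt_pos.mpr (by positivity))
  have H : ∀ σ : Fin N → ℝ, (∀ i, σ i ^ 2 * ‖w i‖ ≤ 3 * n / N) →
      ENNReal.ofReal ((2 * Real.pi) ^ ((N : ℝ) / 2) * Real.exp (-n / 2)) ≤ gw (Abs w σ t) := by
    intro σ hσ
    refine abs_small hB H3.contract hw h0 hτ0 σ (fun i => (hσ i).trans (le_of_eq ?_))
    rw [hτ, Real.sq_sqrt (by positivity)]
  have htilt := tilt hn hnN w (fun i => ‖w i‖) (fun i => norm_nonneg _) (hw.sum_norm h0) ht H
  have hsym := H32.symmetrisation_gw (isClosed_KK w (2 * t)).measurableSet (convex_KK w (2 * t))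
    (show 0 < 2 * t by linarith) (fun z hz => mem_KK_of_le w (2 * t) z hz) htilt
  have hsub : {z : Fin N → ℝ | z ∈ KK w (2 * t) ∧ -z ∈ KK w (2 * t)} ⊆
      {z : Fin N → ℝ | ∀ x, abs (∑ i, z i * |⟪v i, x⟫|) ≤ 5 * Real.sqrt (n / N) * zn v x} := by
    rintro z ⟨h1, h2⟩ x
    set x' : E n := LinearMap.adjoint (A.symm : E n →ₗ[ℝ] E n) x with hx'
    have e : ∀ i, ⟪w i, x'⟫ = ⟪v i, x⟫ := by
      intro i
      rw [hx', LinearMap.adjoint_inner_right]
      simp [hwdef]
    have hz : zn w x' = zn v x := by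
      unfold zn
      exact Finset.sum_congr rfl (fun i _ => by rw [e])
    have a1 := h1 x'
    have a2 := h2 x'
    simp only [e, hz, Pi.neg_apply, neg_mul, Finset.sum_neg_distrib] at a1 a2
    have h3 : abs (∑ i, z i * |⟪v i, x⟫|) ≤ 2 * t * zn v x := abs_le.mpr ⟨by linarith, a1⟩
    refine h3.trans (mul_le_mul_of_nonneg_right ?_ (zn_nonneg v x))
    have h4 : t = Real.sqrt (n / N) * Real.sqrt (3 * (Real.pi / 2)) := by
      rw [ht, hτ, ← Real.sqrt_mul (by positivity), ← Real.sqrt_mul (by positivity)]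
      congr 1
      ring
    have h5 : Real.sqrt (3 * (Real.pi / 2)) ≤ 5 / 2 := by
      rw [Real.sqrt_le_left (by norm_num)]
      have := Real.pi_lt_d2
      linarith
    have h6 := Real.sqrt_nonneg ((n : ℝ) / N)
    rw [h4]
    nlinarith
  have hmono : gw {z : Fin N → ℝ | z ∈ KK w (2 * t) ∧ -z ∈ KK w (2 * t)} ≤
      gw {z : Fin N → ℝ | ∀ x, abs (∑ i, z i * |⟪v i, x⟫|) ≤
        5 * Real.sqrt (n / N) * zn v x} := lintegral_mono_set hsub
  refine le_trans ?_ hmono
  set g := gw {z : Fin N → ℝ | z ∈ KK w (2 * t) ∧ -z ∈ KK w (2 * t)} with hg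
  have h7 : ENNReal.ofReal ((2 * Real.sqrt Real.pi) ^ N) ≤
      ENNReal.ofReal (Real.exp (2 * N)) := by
    refine ENNReal.ofReal_le_ofReal ?_
    have h8 : 2 * Real.sqrt Real.pi ≤ Real.exp 2 := by
      have h9 : Real.sqrt Real.pi ≤ 2 := by
        rw [Real.sqrt_le_left (by norm_num)]
        have := Real.pi_le_four
        linarith
      have h10 := Real.add_one_le_exp (1 : ℝ)
      have h11 : Real.exp 2 = Real.exp 1 * Real.exp 1 := by
        rw [← Real.exp_add]
        norm_num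
      rw [h11]
      nlinarith
    calc (2 * Real.sqrt Real.pi) ^ N ≤ Real.exp 2 ^ N :=
          pow_le_pow_left₀ (by positivity) h8 N
      _ = Real.exp (2 * N) := by
          rw [← Real.exp_nat_mul]
          congr 1
          ring
  have h12 : ENNReal.ofReal (Real.exp (-(30 * N))) ≤ ENNReal.ofReal (Real.exp (2 * N)) * g := by
    refine le_trans (le_of_eq ?_) (hsym.trans (mul_le_mul_left h7 _))
    rw [← ENNReal.ofReal_pow (Real.exp_pos _).le, ← Real.exp_nat_mul]
    congr 2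
    push_cast
    ring
  calc ENNReal.ofReal (Real.exp (-(32 * N)))
      = ENNReal.ofReal (Real.exp (-(2 * N))) * ENNReal.ofReal (Real.exp (-(30 * N))) := by
        rw [← ENNReal.ofReal_mul (Real.exp_pos _).le, ← Real.exp_add]
        congr 2
        ring
    _ ≤ ENNReal.ofReal (Real.exp (-(2 * N))) * (ENNReal.ofReal (Real.exp (2 * N)) * g) :=
        mul_le_mul_right h12 _
    _ = g := by
        rw [← mul_assoc, ← ENNReal.ofReal_mul (Real.exp_pos _).le, ← Real.exp_add]
        simp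

end

end Pool.Agent.Lib.MP_2c1b2b_gt
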